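import Mathlib

/-!
# Unimodular functions on `ZMod m` with constant autocorrelation `-ρ`

`exists_flat`: `m` odd and squarefree, `0 ≤ ρ`, `ρ m ^ 3 < 1`. A small perturbation of a chirp, by a
contraction.
-/

set_option autoImplicit false

namespace Pool.Agent.H37.POS

open Finset Complex ComplexConjugate
open scoped NNReal ENNReal

/-! ### The exponential -/

/-- `e ^ (i u) - 1 - i u`. -/
noncomputable def E (u : ℝ) : ℂ := Complex.exp (I * u) - 1 - I * u

theorem E_zero : E 0 = 0 := by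
  unfold E
  simp

theorem E_conj (u : ℝ) : conj (E u) = E (-u) := by
  unfold E
  rw [map_sub, map_sub, ← Complex.exp_conj, map_mul, conj_I, conj_ofReal, map_one]
  push_cast
  congr 1
  · congr 2
    ring
  · ring

theorem E_lip {M u w : ℝ} (hu : |u| ≤ M) (hw : |w| ≤ M) : ‖E u - E w‖ ≤ M * |u - w| := by
  have hd : ∀ x : ℝ, HasDerivAt E (I * (Complex.exp (I * x) - 1)) x := by
    intro x
    unfold E
    have h1 : HasDerivAt (fun y : ℝ => I * (y : ℂ)) (I * 1) x :=
      (Complex.ofRealCLM.hasDerivAt (x := x)).const_mul I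
    have h2 := (h1.cexp.sub_const 1).sub h1
    refine h2.congr_deriv ?_
    ring
  have h := Convex.norm_image_sub_le_of_norm_hasDerivWithin_le (f := E)
    (f' := fun x => I * (Complex.exp (I * x) - 1)) (C := M) (s := Set.Icc (-M) M) (x := w) (y := u)
    (fun x _ => (hd x).hasDerivWithinAt) (fun x hx => ?_) (convex_Icc _ _) (abs_le.1 hw)
    (abs_le.1 hu)
  · rwa [Real.norm_eq_abs] at h
  · rw [norm_mul, norm_I, one_mul]
    refine Real.norm_exp_I_mul_ofReal_sub_one_le.trans ?_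
    rw [Real.norm_eq_abs]
    exact abs_le.2 hx

/-! ### Sines -/

theorem sin_low {m a : ℕ} (hm : 0 < m) (h1 : 1 ≤ a) (h2 : a + 1 ≤ m) :
    2 / (m : ℝ) ≤ Real.sin (Real.pi * a / m) := by
  have hm0 : (0 : ℝ) < m := by exact_mod_cast hm
  have ha1 : (1 : ℝ) ≤ a := by exact_mod_cast h1
  have ha2 : (a : ℝ) + 1 ≤ m := by exact_mod_cast h2
  have hpi := Real.pi_pos
  have key : ∀ b : ℝ, 1 ≤ b → 2 * b ≤ m → 2 / (m : ℝ) ≤ Real.sin (Real.pi * b / m) := by
    intro b hb1 hb2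
    have h3 : Real.pi * b / m ≤ Real.pi / 2 := by
      rw [div_le_div_iff₀ hm0 two_pos]
      nlinarith
    have h4 := Real.mul_le_sin (x := Real.pi * b / m) (by positivity) h3
    refine le_trans ?_ h4
    have e1 : 2 / Real.pi * (Real.pi * b / m) = 2 * b / m := by field_simp
    rw [e1]
    exact div_le_div_of_nonneg_right (by linarith) hm0.le
  rcases le_total (2 * (a : ℝ)) m with h | h
  · exact key a ha1 h
  · have h5 := key (m - a) (by linarith) (by linarith)
    have e1 : Real.pi * ((m : ℝ) - a) / m = Real.pi - Real.pi * a / m := by field_simp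
    rw [e1, Real.sin_pi_sub] at h5
    exact h5

theorem sin_two {m k : ℕ} (hm : Odd m) (h1 : 1 ≤ k) (h2 : k < m) :
    2 / (m : ℝ) ≤ |Real.sin (2 * Real.pi * k / m)| := by
  have hm0 : 0 < m := by omega
  have hmr : (0 : ℝ) < m := by exact_mod_cast hm0
  obtain ⟨n, hn⟩ := hm
  rcases lt_or_ge (2 * k) m with h | h
  · have h3 := sin_low (a := 2 * k) hm0 (by omega) (by omega)
    have e1 : Real.pi * ((2 * k : ℕ) : ℝ) / m = 2 * Real.pi * k / m := by
      push_cast
      ring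
    rw [e1] at h3
    exact h3.trans (le_abs_self _)
  · have h3 := sin_low (a := 2 * k - m) hm0 (by omega) (by omega)
    have e1 : Real.pi * ((2 * k - m : ℕ) : ℝ) / m = 2 * Real.pi * k / m - Real.pi := by
      rw [Nat.cast_sub h]
      push_cast
      field_simp
    rw [e1, Real.sin_sub_pi] at h3
    exact h3.trans (neg_le_abs _)

/-! ### The characters of `ZMod m` -/

section

variable {m : ℕ} [NeZero m]

/-- The standard character. -/
noncomputable def ps (x : ZMod m) : ℂ := ZMod.stdAddChar x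

theorem ps_add (x y : ZMod m) : ps (x + y) = ps x * ps y := AddChar.map_add_eq_mul _ _ _

theorem ps_zero : ps (0 : ZMod m) = 1 := AddChar.map_zero_eq_one _

theorem ps_neg (x : ZMod m) : ps (-x) = conj (ps x) := AddChar.map_neg_eq_conj _ _

theorem ps_norm (x : ZMod m) : ‖ps x‖ = 1 := by
  unfold ps
  rw [ZMod.stdAddChar_apply]
  exact Circle.norm_coe _

theorem ps_sum (x : ZMod m) : ∑ y, ps (y * x) = if x = 0 then (m : ℂ) else 0 := by
  have h := AddChar.sum_mulShift (ψ := (ZMod.stdAddChar : AddChar (ZMod m) ℂ)) x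
    (ZMod.isPrimitive_stdAddChar m)
  unfold ps
  rw [h, ZMod.card]
  split_ifs <;> simp

theorem ps_im (x : ZMod m) (hm : Odd m) (hx : x ≠ 0) : 2 / (m : ℝ) ≤ |(ps x).im| := by
  have h1 : ps x = Complex.exp (2 * Real.pi * I * x.val / m) := by
    have h2 := ZMod.stdAddChar_coe (N := m) (x.val : ℤ)
    unfold ps
    rw [← Int.cast_natCast, ← h2]
    congr 1
    simp
  have h3 : (2 * Real.pi * I * x.val / m : ℂ) = ((2 * Real.pi * x.val / m : ℝ) : ℂ) * I := by
    push_cast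
    ring
  rw [h1, h3, Complex.exp_ofReal_mul_I_im]
  refine sin_two hm ?_ (ZMod.val_lt x)
  rcases Nat.eq_zero_or_pos x.val with h | h
  · exact absurd ((ZMod.val_eq_zero x).1 h) hx
  · exact h

/-! ### The perturbation -/

/-- The sine of the chirp. -/
noncomputable def sg (h x : ZMod m) : ℝ := (ps (h * x ^ 2)).im

theorem sg_neg (h x : ZMod m) : sg h (-x) = sg h x := by
  unfold sg
  rw [neg_sq]

/-- The phases of `τ`, complex. -/
noncomputable def th (h : ZMod m) (τ : ZMod m → ℂ) (y : ZMod m) : ℂ :=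
  (1 / m) * ∑ x, ps (-(x * y)) * (τ x / (2 * sg h x))

/-- The phases of `τ`. -/
noncomputable def tr (h : ZMod m) (τ : ZMod m → ℂ) (y : ZMod m) : ℝ := (th h τ y).re

/-- The remainder. -/
noncomputable def Rm (h : ZMod m) (τ : ZMod m → ℂ) (x : ZMod m) : ℂ :=
  ps (h * x ^ 2) * ∑ y, ps (x * y) * E (tr h τ (x + y) - tr h τ y)

/-- The map. -/
noncomputable def Fm (h : ZMod m) (ρ : ℝ) (τ : ZMod m → ℂ) (x : ZMod m) : ℂ :=
  if x = 0 then 0 else -ρ - Rm h τ x

theorem th_sub (h : ZMod m) (τ τ' : ZMod m → ℂ) (y : ZMod m) :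
    th h τ y - th h τ' y = th h (τ - τ') y := by
  unfold th
  rw [← mul_sub, ← Finset.sum_sub_distrib]
  congr 1
  refine Finset.sum_congr rfl fun x _ => ?_
  rw [Pi.sub_apply]
  ring

theorem th_le {h : ZMod m} (hm : Odd m) (hh : ∀ x : ZMod m, x ≠ 0 → h * x ^ 2 ≠ 0)
    {τ : ZMod m → ℂ} (h0 : τ 0 = 0) {B : ℝ} (hB : ∀ x, ‖τ x‖ ≤ B) (y : ZMod m) :
    ‖th h τ y‖ ≤ m * B / 4 := by
  have hm0 : (0 : ℝ) < m := by exact_mod_cast Nat.pos_of_ne_zero (NeZero.ne m)
  have hB0 : 0 ≤ B := (norm_nonneg _).trans (hB 0)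
  unfold th
  rw [norm_mul]
  have h1 : ‖(1 / m : ℂ)‖ = 1 / m := by
    rw [norm_div, norm_one, Complex.norm_natCast]
  rw [h1]
  have h2 : ‖∑ x : ZMod m, ps (-(x * y)) * (τ x / (2 * sg h x))‖ ≤ ∑ _x : ZMod m, m * B / 4 := by
    refine (norm_sum_le _ _).trans (Finset.sum_le_sum fun x _ => ?_)
    rw [norm_mul, ps_norm, one_mul, norm_div, norm_mul]
    by_cases hx : x = 0
    · rw [hx, h0, norm_zero, zero_div]
      positivity
    · have h3 := ps_im (h * x ^ 2) hm (hh x hx)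
      have h4 : ‖(2 : ℂ)‖ * ‖((sg h x : ℝ) : ℂ)‖ = 2 * |sg h x| := by
        rw [Complex.norm_real, Real.norm_eq_abs]
        norm_num
      rw [h4]
      have h5 : 4 / (m : ℝ) ≤ 2 * |sg h x| := by
        have : (4 : ℝ) / m = 2 * (2 / m) := by ring
        rw [this]
        exact mul_le_mul_of_nonneg_left h3 two_pos.le
      calc ‖τ x‖ / (2 * |sg h x|) ≤ B / (4 / m) :=
            div_le_div₀ hB0 (hB x) (by positivity) h5
        _ = m * B / 4 := by
            field_simp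
  rw [Finset.sum_const, Finset.card_univ, ZMod.card, nsmul_eq_mul] at h2
  calc 1 / (m : ℝ) * ‖∑ x : ZMod m, ps (-(x * y)) * (τ x / (2 * sg h x))‖
      ≤ 1 / m * (m * (m * B / 4)) := mul_le_mul_of_nonneg_left h2 (by positivity)
    _ = m * B / 4 := by field_simp

theorem tr_sub_le {h : ZMod m} (hm : Odd m) (hh : ∀ x : ZMod m, x ≠ 0 → h * x ^ 2 ≠ 0)
    {τ τ' : ZMod m → ℂ} (h0 : τ 0 = 0) (h0' : τ' 0 = 0) {B : ℝ} (hB : ∀ x, ‖τ x - τ' x‖ ≤ B)
    (y : ZMod m) : |tr h τ y - tr h τ' y| ≤ m * B / 4 := by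
  have h1 : tr h τ y - tr h τ' y = (th h (τ - τ') y).re := by
    rw [← th_sub, Complex.sub_re]
    rfl
  rw [h1]
  exact (Complex.abs_re_le_norm _).trans (th_le hm hh (τ := τ - τ')
    (show τ 0 - τ' 0 = 0 by rw [h0, h0', sub_zero]) (fun x => hB x) y)

theorem tr_le {h : ZMod m} (hm : Odd m) (hh : ∀ x : ZMod m, x ≠ 0 → h * x ^ 2 ≠ 0)
    {τ : ZMod m → ℂ} (h0 : τ 0 = 0) {B : ℝ} (hB : ∀ x, ‖τ x‖ ≤ B) (y : ZMod m) :
    |tr h τ y| ≤ m * B / 4 :=
  (Complex.abs_re_le_norm _).trans (th_le hm hh h0 hB y)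

theorem Rm_sub_le {h : ZMod m} (hm : Odd m) (hh : ∀ x : ZMod m, x ≠ 0 → h * x ^ 2 ≠ 0)
    {τ τ' : ZMod m → ℂ} (h0 : τ 0 = 0) (h0' : τ' 0 = 0) {B D : ℝ} (hB : ∀ x, ‖τ x‖ ≤ B)
    (hB' : ∀ x, ‖τ' x‖ ≤ B) (hD : ∀ x, ‖τ x - τ' x‖ ≤ D) (x : ZMod m) :
    ‖Rm h τ x - Rm h τ' x‖ ≤ m * ((m * B / 2) * (m * D / 2)) := by
  have hm0 : (0 : ℝ) < m := by exact_mod_cast Nat.pos_of_ne_zero (NeZero.ne m)
  have hB0 : 0 ≤ B := (norm_nonneg _).trans (hB 0)
  unfold Rm
  rw [← mul_sub, ← Finset.sum_sub_distrib, norm_mul, ps_norm, one_mul]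
  have h2 : ‖∑ y : ZMod m, (ps (x * y) * E (tr h τ (x + y) - tr h τ y) -
      ps (x * y) * E (tr h τ' (x + y) - tr h τ' y))‖ ≤
      ∑ _y : ZMod m, (m * B / 2) * (m * D / 2) := by
    refine (norm_sum_le _ _).trans (Finset.sum_le_sum fun y _ => ?_)
    rw [← mul_sub, norm_mul, ps_norm, one_mul]
    have a1 := abs_le.1 (tr_le hm hh h0 hB (x + y))
    have a2 := abs_le.1 (tr_le hm hh h0 hB y)
    have a3 := abs_le.1 (tr_le hm hh h0' hB' (x + y))
    have a4 := abs_le.1 (tr_le hm hh h0' hB' y)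
    have a5 := abs_le.1 (tr_sub_le hm hh h0 h0' hD (x + y))
    have a6 := abs_le.1 (tr_sub_le hm hh h0 h0' hD y)
    refine (E_lip (M := m * B / 2) ?_ ?_).trans (mul_le_mul_of_nonneg_left ?_ (by positivity))
    · rw [abs_le]
      constructor <;> linarith [a1.1, a1.2, a2.1, a2.2]
    · rw [abs_le]
      constructor <;> linarith [a3.1, a3.2, a4.1, a4.2]
    · rw [abs_le]
      constructor <;> linarith [a5.1, a5.2, a6.1, a6.2]
  rw [Finset.sum_const, Finset.card_univ, ZMod.card, nsmul_eq_mul] at h2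
  exact h2

theorem Rm_zero (h x : ZMod m) : Rm h 0 x = 0 := by
  unfold Rm tr th
  simp [E_zero]

theorem tr_neg {h : ZMod m} {τ : ZMod m → ℂ} (hc : ∀ x, τ (-x) = conj (τ x)) (y : ZMod m) :
    conj (th h τ y) = th h τ y := by
  unfold th
  rw [map_mul, map_sum]
  have h1 : conj (1 / m : ℂ) = 1 / m := by
    rw [map_div₀, map_one, Complex.conj_natCast]
  rw [h1]
  congr 1
  refine Fintype.sum_equiv (Equiv.neg (ZMod m)) _ _ fun x => ?_
  rw [map_mul, map_div₀, map_mul, ← ps_neg, ← hc, conj_ofReal, Equiv.neg_apply, sg_neg]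
  have h2 : conj (2 : ℂ) = 2 := Complex.conj_ofNat 2
  rw [h2]
  congr 2
  ring

theorem Rm_conj {h : ZMod m} (h2 : 2 * h = 1) {τ : ZMod m → ℂ} (x : ZMod m) :
    Rm h τ (-x) = conj (Rm h τ x) := by
  unfold Rm
  rw [map_mul, map_sum, ← ps_neg, neg_sq]
  have e1 : ∑ y, conj (ps (x * y) * E (tr h τ (x + y) - tr h τ y)) =
      ∑ z, ps (-(x * (z - x))) * E (tr h τ (z - x) - tr h τ z) := by
    refine Fintype.sum_equiv (Equiv.addLeft x) _ _ fun y => ?_
    rw [map_mul, E_conj, ← ps_neg]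
    simp only [Equiv.coe_addLeft]
    congr 2
    · ring
    · have : x + y - x = y := by ring
      rw [this]
      ring
  rw [e1, Finset.mul_sum, Finset.mul_sum]
  refine Finset.sum_congr rfl fun z _ => ?_
  rw [← mul_assoc, ← mul_assoc, ← ps_add, ← ps_add]
  have e2 : h * x ^ 2 + -x * z = -(h * x ^ 2) + -(x * (z - x)) := by
    have : x ^ 2 = 2 * h * x ^ 2 := by rw [h2, one_mul]
    linear_combination -this
  have e3 : -x + z = z - x := by ring
  rw [e2, e3]

/-! ### The fixed point -/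

theorem exists_tau (hm : Odd m) {h : ZMod m} (hh : ∀ x : ZMod m, x ≠ 0 → h * x ^ 2 ≠ 0)
    (h2 : 2 * h = 1) {ρ : ℝ} (h0 : 0 ≤ ρ) (h1 : ρ * m ^ 3 < 1) :
    ∃ τ : ZMod m → ℂ, τ 0 = 0 ∧ (∀ x, τ (-x) = conj (τ x)) ∧ Fm h ρ τ = τ := by
  have hm0 : (0 : ℝ) < m := by exact_mod_cast Nat.pos_of_ne_zero (NeZero.ne m)
  obtain ⟨s, hs⟩ : ∃ s : Set (ZMod m → ℂ), s = {τ | τ 0 = 0 ∧ (∀ x, τ (-x) = conj (τ x)) ∧
    ∀ x, ‖τ x‖ ≤ 2 * ρ} := ⟨_, rfl⟩
  have hmem : ∀ τ, τ ∈ s ↔ τ 0 = 0 ∧ (∀ x, τ (-x) = conj (τ x)) ∧ ∀ x, ‖τ x‖ ≤ 2 * ρ := by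
    intro τ
    rw [hs]
    rfl
  have hcl : IsClosed s := by
    rw [hs]
    refine IsClosed.inter ?_ (IsClosed.inter ?_ ?_)
    · exact isClosed_eq (continuous_apply 0) continuous_const
    · have : {τ : ZMod m → ℂ | ∀ x, τ (-x) = conj (τ x)} =
          ⋂ x, {τ : ZMod m → ℂ | τ (-x) = conj (τ x)} := by
        ext τ
        simp
      show IsClosed {τ : ZMod m → ℂ | ∀ x, τ (-x) = conj (τ x)}
      rw [this]
      exact isClosed_iInter fun x => isClosed_eq (continuous_apply _)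
        (Complex.continuous_conj.comp (continuous_apply _))
    · have : {τ : ZMod m → ℂ | ∀ x, ‖τ x‖ ≤ 2 * ρ} = ⋂ x, {τ : ZMod m → ℂ | ‖τ x‖ ≤ 2 * ρ} := by
        ext τ
        simp
      show IsClosed {τ : ZMod m → ℂ | ∀ x, ‖τ x‖ ≤ 2 * ρ}
      rw [this]
      exact isClosed_iInter fun x => isClosed_le (continuous_norm.comp (continuous_apply _))
        continuous_const
  have hz : (0 : ZMod m → ℂ) ∈ s := by
    rw [hmem]
    exact ⟨rfl, fun x => by simp, fun x => by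
      rw [Pi.zero_apply, norm_zero]
      positivity⟩
  have hlip : ∀ τ ∈ s, ∀ τ' ∈ s, ∀ D : ℝ, (∀ x, ‖τ x - τ' x‖ ≤ D) → ∀ x,
      ‖Rm h τ x - Rm h τ' x‖ ≤ ρ * m ^ 3 / 2 * D := by
    intro τ hτ τ' hτ' D hD x
    obtain ⟨a1, -, a2⟩ := (hmem τ).1 hτ
    obtain ⟨b1, -, b2⟩ := (hmem τ').1 hτ'
    refine (Rm_sub_le hm hh a1 b1 a2 b2 hD x).trans (le_of_eq ?_)
    ring
  have hmap : Set.MapsTo (Fm h ρ) s s := by
    intro τ hτ
    obtain ⟨a1, a2, a3⟩ := (hmem τ).1 hτ
    rw [hmem]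
    refine ⟨by unfold Fm; rw [if_pos rfl], fun x => ?_, fun x => ?_⟩
    · unfold Fm
      by_cases hx : x = 0
      · rw [hx, neg_zero, if_pos rfl, map_zero]
      · rw [if_neg hx, if_neg (neg_ne_zero.2 hx), map_sub, map_neg, conj_ofReal, Rm_conj h2]
    · unfold Fm
      split_ifs with hx
      · rw [norm_zero]
        positivity
      · have h3 := hlip τ hτ 0 hz (2 * ρ) (fun x => by
          rw [Pi.zero_apply, sub_zero]
          exact a3 x) x
        rw [Rm_zero, sub_zero] at h3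
        have h4 : ρ * m ^ 3 / 2 * (2 * ρ) ≤ ρ := by nlinarith
        have h5 : ‖(-ρ : ℂ)‖ = ρ := by
          rw [norm_neg, Complex.norm_real, Real.norm_eq_abs, abs_of_nonneg h0]
        refine (norm_sub_le _ _).trans ?_
        rw [h5]
        linarith
  obtain ⟨K, hK⟩ : ∃ K : ℝ≥0, (K : ℝ) = ρ * m ^ 3 / 2 := ⟨⟨ρ * m ^ 3 / 2, by positivity⟩, rfl⟩
  have hcon : ContractingWith K (hmap.restrict (Fm h ρ) s s) := by
    refine ⟨?_, LipschitzWith.of_dist_le_mul fun τ τ' => ?_⟩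
    · rw [← NNReal.coe_lt_coe, hK, NNReal.coe_one]
      linarith
    · rw [hK]
      show dist (Fm h ρ τ.1) (Fm h ρ τ'.1) ≤ ρ * m ^ 3 / 2 * dist τ.1 τ'.1
      refine (dist_pi_le_iff (by positivity)).2 fun x => ?_
      unfold Fm
      split_ifs with hx
      · rw [dist_self]
        positivity
      · rw [dist_eq_norm]
        have e1 : (-(ρ : ℂ) - Rm h τ.1 x) - (-(ρ : ℂ) - Rm h τ'.1 x) =
            -(Rm h τ.1 x - Rm h τ'.1 x) := by ring
        rw [e1, norm_neg]
        refine hlip _ τ.2 _ τ'.2 _ (fun x => ?_) x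
        rw [← dist_eq_norm]
        exact dist_le_pi_dist _ _ x
  obtain ⟨τ, hτ, hfix, -⟩ := hcon.exists_fixedPoint' hcl.isComplete hmap hz (edist_ne_top _ _)
  obtain ⟨a1, a2, -⟩ := (hmem τ).1 hτ
  exact ⟨τ, a1, a2, hfix⟩

/-- **A flat function with constant autocorrelation.** -/
theorem exists_flat (hm : Odd m) {h : ZMod m} (hh : ∀ x : ZMod m, x ≠ 0 → h * x ^ 2 ≠ 0)
    (h2 : 2 * h = 1) {ρ : ℝ} (h0 : 0 ≤ ρ) (h1 : ρ * m ^ 3 < 1) :
    ∃ v : ZMod m → ℂ, (∀ x, ‖v x‖ = 1) ∧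
      ∀ x, x ≠ 0 → ∑ y, v (y + x) * conj (v y) = -ρ := by
  have hm0 : (m : ℂ) ≠ 0 := by exact_mod_cast NeZero.ne m
  have hmr : (0 : ℝ) < m := by exact_mod_cast Nat.pos_of_ne_zero (NeZero.ne m)
  obtain ⟨τ, t0, tc, tf⟩ := exists_tau hm hh h2 h0 h1
  have hre : ∀ y, ((tr h τ y : ℝ) : ℂ) = th h τ y := fun y =>
    Complex.conj_eq_iff_re.1 (tr_neg tc y)
  refine ⟨fun y => ps (h * y ^ 2) * Complex.exp (I * (tr h τ y : ℝ)), fun x => ?_, fun x hx => ?_⟩
  · rw [norm_mul, ps_norm, one_mul, mul_comm, Complex.norm_exp_ofReal_mul_I]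
  · have e1 : ∀ y : ZMod m, ps (h * (y + x) ^ 2) * Complex.exp (I * (tr h τ (y + x) : ℝ)) *
        conj (ps (h * y ^ 2) * Complex.exp (I * (tr h τ y : ℝ))) =
        ps (h * x ^ 2) * (ps (x * y) * (1 + I * ((tr h τ (x + y) : ℝ) - (tr h τ y : ℝ)) +
          E (tr h τ (x + y) - tr h τ y))) := by
      intro y
      have e2 : conj (Complex.exp (I * (tr h τ y : ℝ))) = Complex.exp (-(I * (tr h τ y : ℝ))) := by
        rw [← Complex.exp_conj, map_mul, conj_I, conj_ofReal]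
        congr 1
        ring
      rw [map_mul, e2, ← ps_neg]
      have e3 : (1 : ℂ) + I * ((tr h τ (x + y) : ℝ) - (tr h τ y : ℝ)) +
          E (tr h τ (x + y) - tr h τ y) = Complex.exp (I * (tr h τ (y + x) : ℝ)) *
            Complex.exp (-(I * (tr h τ y : ℝ))) := by
        rw [← Complex.exp_add]
        unfold E
        rw [add_comm y x]
        push_cast
        have : I * (tr h τ (x + y) : ℂ) + -(I * (tr h τ y : ℂ)) =
            I * ((tr h τ (x + y) : ℂ) - (tr h τ y : ℂ)) := by ring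
        rw [this]
        ring
      rw [e3]
      have e4 : ps (h * (y + x) ^ 2) * ps (-(h * y ^ 2)) = ps (h * x ^ 2) * ps (x * y) := by
        rw [← ps_add, ← ps_add]
        congr 1
        have : x * y = 2 * h * (x * y) := by rw [h2, one_mul]
        linear_combination -this
      calc ps (h * (y + x) ^ 2) * Complex.exp (I * (tr h τ (y + x) : ℝ)) *
            (ps (-(h * y ^ 2)) * Complex.exp (-(I * (tr h τ y : ℝ)))) =
            ps (h * (y + x) ^ 2) * ps (-(h * y ^ 2)) * (Complex.exp (I * (tr h τ (y + x) : ℝ)) *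
            Complex.exp (-(I * (tr h τ y : ℝ)))) := by ring
        _ = _ := by rw [e4]; ring
    rw [Finset.sum_congr rfl fun y _ => e1 y, ← Finset.mul_sum]
    -- the transform of the phases
    have hT : ∀ z : ZMod m, ∑ y, ps (z * y) * (tr h τ y : ℂ) = τ z / (2 * sg h z) := by
      intro z
      have e2 : ∀ y : ZMod m, ps (z * y) * (tr h τ y : ℂ) =
          (1 / m) * ∑ x, (τ x / (2 * sg h x)) * ps (y * (z - x)) := by
        intro y
        rw [hre y]
        unfold th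
        rw [← mul_assoc, mul_comm (ps (z * y)), mul_assoc, Finset.mul_sum]
        congr 1
        refine Finset.sum_congr rfl fun x _ => ?_
        have : ps (y * (z - x)) = ps (z * y) * ps (-(x * y)) := by
          rw [← ps_add]
          congr 1
          ring
        rw [this]
        ring
      rw [Finset.sum_congr rfl fun y _ => e2 y, ← Finset.mul_sum, Finset.sum_comm]
      have e3 : ∀ x : ZMod m, ∑ y, (τ x / (2 * sg h x)) * ps (y * (z - x)) =
          if x = z then (τ z / (2 * sg h z)) * m else 0 := by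
        intro x
        rw [← Finset.mul_sum, ps_sum]
        by_cases hxz : x = z
        · rw [if_pos (by rw [hxz, sub_self]), if_pos hxz, hxz]
        · rw [if_neg (by rwa [sub_eq_zero, eq_comm]), if_neg hxz, mul_zero]
      rw [Finset.sum_congr rfl fun x _ => e3 x, Finset.sum_ite_eq' Finset.univ z,
        if_pos (Finset.mem_univ z)]
      field_simp
    have e5 : ∑ y, ps (x * y) = 0 := by
      have h3 := ps_sum x
      rw [if_neg hx] at h3
      rw [← h3]
      exact Finset.sum_congr rfl fun y _ => by rw [mul_comm]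
    have e6 : ∑ y, ps (x * y) * (tr h τ (x + y) : ℂ) = ps (-(x ^ 2)) * (τ x / (2 * sg h x)) := by
      rw [← hT x, Finset.mul_sum]
      refine Fintype.sum_equiv (Equiv.addLeft x) _ _ fun y => ?_
      simp only [Equiv.coe_addLeft]
      rw [← mul_assoc, ← ps_add]
      congr 2
      ring
    have e7 : ∑ y, ps (x * y) * (1 + I * ((tr h τ (x + y) : ℂ) - (tr h τ y : ℂ)) +
        E (tr h τ (x + y) - tr h τ y)) = I * ((ps (-(x ^ 2)) - 1) * (τ x / (2 * sg h x))) +
        ∑ y, ps (x * y) * E (tr h τ (x + y) - tr h τ y) := by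
      have e8 : ∀ y : ZMod m, ps (x * y) * (1 + I * ((tr h τ (x + y) : ℂ) - (tr h τ y : ℂ)) +
          E (tr h τ (x + y) - tr h τ y)) = ps (x * y) + I * (ps (x * y) * (tr h τ (x + y) : ℂ)) -
          I * (ps (x * y) * (tr h τ y : ℂ)) + ps (x * y) * E (tr h τ (x + y) - tr h τ y) := by
        intro y
        ring
      rw [Finset.sum_congr rfl fun y _ => e8 y, Finset.sum_add_distrib, Finset.sum_sub_distrib,
        Finset.sum_add_distrib, ← Finset.mul_sum, ← Finset.mul_sum, e5, e6, hT x]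
      ring
    rw [e7, mul_add]
    have e9 : ps (h * x ^ 2) * ∑ y, ps (x * y) * E (tr h τ (x + y) - tr h τ y) = Rm h τ x := rfl
    rw [e9]
    have e10 : ps (h * x ^ 2) * ps (-(x ^ 2)) = conj (ps (h * x ^ 2)) := by
      rw [← ps_neg, ← ps_add]
      congr 1
      have : x ^ 2 = 2 * h * x ^ 2 := by rw [h2, one_mul]
      linear_combination -this
    have e11 : conj (ps (h * x ^ 2)) - ps (h * x ^ 2) = -(2 * I * sg h x) := by
      unfold sg
      apply Complex.ext <;> simp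
      ring
    have hs : (sg h x : ℂ) ≠ 0 := by
      have h3 := ps_im (h * x ^ 2) hm (hh x hx)
      have h4 : (0 : ℝ) < 2 / m := by positivity
      have h5 : sg h x ≠ 0 := by
        intro h6
        unfold sg at h6
        rw [h6, abs_zero] at h3
        linarith
      exact_mod_cast h5
    have e12 : ps (h * x ^ 2) * (I * ((ps (-(x ^ 2)) - 1) * (τ x / (2 * sg h x)))) = τ x := by
      have e13 : ps (h * x ^ 2) * (I * ((ps (-(x ^ 2)) - 1) * (τ x / (2 * sg h x)))) =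
          I * ((ps (h * x ^ 2) * ps (-(x ^ 2)) - ps (h * x ^ 2)) * (τ x / (2 * sg h x))) := by ring
      rw [e13, e10, e11]
      field_simp
      ring_nf
      simp
    rw [e12]
    have h7 : Fm h ρ τ x = τ x := by rw [tf]
    unfold Fm at h7
    rw [if_neg hx] at h7
    rw [← h7]
    ring

end

/-! ### The array -/

open Matrix in
/-- `m` odd and squarefree, `0 ≤ ρ`, `ρ m ^ 3 < 1`: a normal unimodular array of order `m`, with
constant row and column sums, and all inner products of distinct rows equal to `-ρ`. -/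
theorem near_exists {m : ℕ} (hm : Squarefree m) (hodd : Odd m) {ρ : ℝ} (h0 : 0 ≤ ρ)
    (h1 : ρ * m ^ 3 < 1) :
    ∃ (κ : Type) (_ : Fintype κ) (_ : DecidableEq κ) (V : Matrix κ κ ℂ), Fintype.card κ = m ∧
      (∀ i j, ‖V i j‖ = 1) ∧ V * Vᴴ = Vᴴ * V ∧
      V * (of fun _ _ => 1) = (of fun _ _ => 1) * V ∧
      V * Vᴴ = ((m : ℂ) + ρ) • (1 : Matrix κ κ ℂ) - (ρ : ℂ) • (of fun _ _ => 1) := by
  have hmp : 0 < m := hodd.pos
  have : NeZero m := ⟨hmp.ne'⟩
  obtain ⟨k, hk⟩ := hodd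
  have h2 : (2 : ZMod m) * ((k + 1 : ℕ) : ZMod m) = 1 := by
    have h3 : (2 : ZMod m) * ((k + 1 : ℕ) : ZMod m) = ((m + 1 : ℕ) : ZMod m) := by
      rw [hk]
      push_cast
      ring
    rw [h3, Nat.cast_add, ZMod.natCast_self, zero_add, Nat.cast_one]
  have hh : ∀ x : ZMod m, x ≠ 0 → ((k + 1 : ℕ) : ZMod m) * x ^ 2 ≠ 0 := by
    intro x hx h3
    apply hx
    have h4 : x ^ 2 = 0 := by
      calc x ^ 2 = (2 * ((k + 1 : ℕ) : ZMod m)) * x ^ 2 := by rw [h2, one_mul]
        _ = 2 * (((k + 1 : ℕ) : ZMod m) * x ^ 2) := by ring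
        _ = 0 := by rw [h3, mul_zero]
    have h5 : ((x.val ^ 2 : ℕ) : ZMod m) = 0 := by
      rw [Nat.cast_pow, ZMod.natCast_zmod_val, h4]
    rw [ZMod.natCast_eq_zero_iff] at h5
    have h6 : m ∣ x.val := (hm.dvd_pow_iff_dvd two_ne_zero).1 h5
    have h7 : ((x.val : ℕ) : ZMod m) = 0 := (ZMod.natCast_eq_zero_iff _ _).2 h6
    rwa [ZMod.natCast_zmod_val] at h7
  obtain ⟨v, hv, hr⟩ := exists_flat (m := m) ⟨k, hk⟩ hh h2 h0 h1
  have hr0 : ∀ x : ZMod m, ∑ y, v (y + x) * conj (v y) =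
      ((m : ℂ) + ρ) * (if x = 0 then 1 else 0) - ρ := by
    intro x
    by_cases hx : x = 0
    · subst hx
      have h3 : ∀ y : ZMod m, v (y + 0) * conj (v y) = 1 := by
        intro y
        rw [add_zero, Complex.mul_conj, Complex.normSq_eq_norm_sq, hv y]
        norm_num
      rw [Finset.sum_congr rfl fun y _ => h3 y, Finset.sum_const, Finset.card_univ, ZMod.card,
        if_pos rfl, nsmul_eq_mul]
      ring
    · rw [hr x hx, if_neg hx]
      ring
  have hA : ∀ i k' : ZMod m, ((of fun i j => v (i - j) : Matrix (ZMod m) (ZMod m) ℂ) *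
      (of fun i j => v (i - j))ᴴ) i k' = ∑ y, v (y + (i - k')) * conj (v y) := by
    intro i k'
    rw [Matrix.mul_apply]
    refine Fintype.sum_equiv (Equiv.subLeft k') _ _ fun j => ?_
    rw [Matrix.conjTranspose_apply, Matrix.of_apply, Matrix.of_apply, Equiv.subLeft_apply,
      show k' - j + (i - k') = i - j by ring]
    rfl
  have hB : ∀ i k' : ZMod m, ((of fun i j => v (i - j) : Matrix (ZMod m) (ZMod m) ℂ)ᴴ *
      (of fun i j => v (i - j))) i k' = ∑ y, v (y + (i - k')) * conj (v y) := by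
    intro i k'
    rw [Matrix.mul_apply]
    refine Fintype.sum_equiv (Equiv.subRight i) _ _ fun j => ?_
    rw [Matrix.conjTranspose_apply, Matrix.of_apply, Matrix.of_apply, Equiv.subRight_apply,
      show j - i + (i - k') = j - k' by ring, mul_comm]
    rfl
  refine ⟨ZMod m, inferInstance, inferInstance, of fun i j => v (i - j), ZMod.card m, ?_, ?_, ?_,
    ?_⟩
  · intro i j
    rw [Matrix.of_apply]
    exact hv _
  · ext i k'
    rw [hA, hB]
  · ext i k'
    rw [Matrix.mul_apply, Matrix.mul_apply]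
    have e1 : ∑ j : ZMod m, (of fun i j => v (i - j) : Matrix (ZMod m) (ZMod m) ℂ) i j *
        (of fun _ _ => 1 : Matrix (ZMod m) (ZMod m) ℂ) j k' = ∑ y, v y := by
      refine Fintype.sum_equiv (Equiv.subLeft i) _ _ fun j => ?_
      rw [Matrix.of_apply, Matrix.of_apply, Equiv.subLeft_apply, mul_one]
    have e2 : ∑ j : ZMod m, (of fun _ _ => 1 : Matrix (ZMod m) (ZMod m) ℂ) i j *
        (of fun i j => v (i - j) : Matrix (ZMod m) (ZMod m) ℂ) j k' = ∑ y, v y := by
      refine Fintype.sum_equiv (Equiv.subRight k') _ _ fun j => ?_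
      rw [Matrix.of_apply, Matrix.of_apply, Equiv.subRight_apply, one_mul]
    rw [e1, e2]
  · ext i k'
    rw [hA, hr0, Matrix.sub_apply, Matrix.smul_apply, Matrix.smul_apply, Matrix.one_apply,
      Matrix.of_apply, smul_eq_mul, smul_eq_mul, mul_one]
    by_cases h3 : i = k'
    · rw [if_pos h3, if_pos (sub_eq_zero.2 h3)]
    · rw [if_neg h3, if_neg (fun h4 => h3 (sub_eq_zero.1 h4))]

end Pool.Agent.H37.POS
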