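import Mathlib

/-!
# A real system of equations, solvable near its limit, uniformly over a circle

`real_exists`. The third equation gives `C ^ 2` from `s, σ`, the first two give `T X`, `C Y`; two
equations in two unknowns remain, which are solved near the limit by local surjectivity, and the
circle is compact.
-/

set_option autoImplicit false

namespace Pool.Agent.H37.POS

open Filter Topology

/-- The space of parameters `(ε, (α, β))` and unknowns `(S, Z)`. -/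
abbrev RP : Type := (ℝ × (ℝ × ℝ)) × (ℝ × ℝ)

/-- Local solvability. -/
theorem local_solve {f : RP → ℝ × ℝ} {p : ℝ × (ℝ × ℝ)} {z : ℝ × ℝ} (hf : ContDiffAt ℝ 1 f (p, z))
    (h0 : f (p, z) = 0) (hs : ∀ w : ℝ × ℝ, ∃ v : ℝ × ℝ,
      HasDerivAt (fun t : ℝ => f (p, z + t • v)) w 0)
    {R : RP → Prop} (hR : ∀ᶠ x in 𝓝 (p, z), R x) :
    ∀ᶠ p' in 𝓝 p, ∃ z', R (p', z') ∧ f (p', z') = 0 := by
  have hf' : HasStrictFDerivAt f (fderiv ℝ f (p, z)) (p, z) :=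
    hf.hasStrictFDerivAt one_ne_zero
  have hΦ : HasStrictFDerivAt (fun x : RP => (x.1, f x))
      ((ContinuousLinearMap.fst ℝ (ℝ × (ℝ × ℝ)) (ℝ × ℝ)).prod (fderiv ℝ f (p, z))) (p, z) :=
    hasStrictFDerivAt_fst.prodMk hf'
  have hsurj : ((ContinuousLinearMap.fst ℝ (ℝ × (ℝ × ℝ)) (ℝ × ℝ)).prod
      (fderiv ℝ f (p, z))).range = ⊤ := by
    rw [LinearMap.range_eq_top]
    rintro ⟨u, w⟩
    obtain ⟨v, hv⟩ := hs (w - fderiv ℝ f (p, z) (u, 0))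
    have h1 : HasDerivAt (fun t : ℝ => ((p, z + t • v) : RP)) ((0, v) : RP) 0 := by
      refine HasDerivAt.prodMk (hasDerivAt_const _ _) ?_
      have h2 := ((hasDerivAt_id (0 : ℝ)).smul_const v).const_add z
      simpa using h2
    have h2 : HasDerivAt (fun t : ℝ => f (p, z + t • v)) (fderiv ℝ f (p, z) (0, v)) 0 := by
      have h3 : HasFDerivAt f (fderiv ℝ f (p, z)) ((fun t : ℝ => ((p, z + t • v) : RP)) 0) := by
        simpa using hf'.hasFDerivAt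
      exact h3.comp_hasDerivAt (0 : ℝ) h1
    have h3 := hv.unique h2
    refine ⟨(u, v), ?_⟩
    have h4 : fderiv ℝ f (p, z) (u, v) = w := by
      have h5 : ((u, v) : RP) = (u, 0) + (0, v) := by simp
      rw [h5, map_add, ← h3]
      abel
    exact Prod.ext rfl h4
  have hm := hΦ.map_nhds_eq_of_surj hsurj
  have h1 : ∀ᶠ y in 𝓝 (p, (0 : ℝ × ℝ)), ∃ x : RP, R x ∧ (x.1, f x) = y := by
    rw [h0] at hm
    rw [← hm, Filter.eventually_map]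
    filter_upwards [hR] with x hx
    exact ⟨x, hx, rfl⟩
  have h2 : Tendsto (fun p' : ℝ × (ℝ × ℝ) => (p', (0 : ℝ × ℝ))) (𝓝 p) (𝓝 (p, (0 : ℝ × ℝ))) :=
    (continuous_id.prodMk continuous_const).tendsto p
  filter_upwards [h2.eventually h1] with p' hp'
  obtain ⟨x, hx, hxe⟩ := hp'
  obtain ⟨e1, e2⟩ := Prod.ext_iff.1 hxe
  simp only at e1 e2
  refine ⟨x.2, ?_, ?_⟩
  · rw [← e1]
    exact hx
  · rw [← e1]
    exact e2

/-- `cos e`. -/
noncomputable def rc (x : RP) : ℝ := √(1 - (x.1.1 * x.2.1) ^ 2)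
/-- `cos d`. -/
noncomputable def rk (x : RP) : ℝ := √(1 - (x.1.1 * x.2.2) ^ 2)
/-- `C ^ 2`. -/
noncomputable def rK (x : RP) : ℝ :=
  (2 * rc x ^ 3 + rc x * (rk x ^ 2 - (x.1.1 * x.2.2) ^ 2) -
    2 * (x.1.1 * x.2.1) * (x.1.1 * x.2.2) * rk x) / (4 * rc x * (rc x ^ 2 - (x.1.1 * x.2.1) ^ 2))
/-- The common part of `T X` and `C Y`. -/
noncomputable def rL (x : RP) : ℝ := x.2.2 * rk x / (2 * rc x) - x.2.1 * rK x
/-- The small part of `T X`. -/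
noncomputable def rM (x : RP) : ℝ := x.2.2 * rk x / (2 * rc x) + x.2.1 * (1 - rK x)
/-- `T X`. -/
noncomputable def rP (x : RP) : ℝ := x.1.2.1 * rL x - x.1.1 * rM x
/-- The two equations which remain. -/
noncomputable def rf (x : RP) : ℝ × ℝ :=
  (rP x ^ 2 / (1 - rK x) + (x.1.2.2 * rL x) ^ 2 / rK x - 1,
    (1 - x.1.1 ^ 2) * x.2.2 ^ 2 - 4 * x.1.1 * x.2.1 * rP x +
      2 * (1 - x.1.1 ^ 2) * x.2.1 ^ 2 * (1 - rK x) - 4)

theorem rc_zero {p z : ℝ × ℝ} : rc ((0, p), z) = 1 := by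
  unfold rc
  simp

theorem rk_zero {p z : ℝ × ℝ} : rk ((0, p), z) = 1 := by
  unfold rk
  simp

theorem rK_zero {p z : ℝ × ℝ} : rK ((0, p), z) = 3 / 4 := by
  unfold rK
  rw [rc_zero, rk_zero]
  norm_num

theorem rL_zero {p z : ℝ × ℝ} : rL ((0, p), z) = z.2 / 2 - 3 / 4 * z.1 := by
  unfold rL
  rw [rc_zero, rk_zero, rK_zero]
  ring

theorem rP_zero {p z : ℝ × ℝ} : rP ((0, p), z) = p.1 * (z.2 / 2 - 3 / 4 * z.1) := by
  unfold rP
  rw [rL_zero]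
  ring

theorem rf_zero {p z : ℝ × ℝ} : rf ((0, p), z) =
    ((4 * p.1 ^ 2 + 4 / 3 * p.2 ^ 2) * (z.2 / 2 - 3 / 4 * z.1) ^ 2 - 1,
      z.2 ^ 2 + z.1 ^ 2 / 2 - 4) := by
  unfold rf
  rw [rP_zero, rL_zero, rK_zero]
  refine Prod.ext ?_ ?_
  · simp only
    ring
  · simp only
    ring

theorem rc_diff {p z : ℝ × ℝ} : ContDiffAt ℝ 1 rc ((0, p), z) := by
  unfold rc
  refine ContDiffAt.sqrt (by fun_prop) ?_
  simp

theorem rk_diff {p z : ℝ × ℝ} : ContDiffAt ℝ 1 rk ((0, p), z) := by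
  unfold rk
  refine ContDiffAt.sqrt (by fun_prop) ?_
  simp

theorem rK_diff {p z : ℝ × ℝ} : ContDiffAt ℝ 1 rK ((0, p), z) := by
  have h1 := rc_diff (p := p) (z := z)
  have h2 := rk_diff (p := p) (z := z)
  unfold rK
  refine ContDiffAt.div (by fun_prop) (by fun_prop) ?_
  rw [rc_zero]
  norm_num

theorem rL_diff {p z : ℝ × ℝ} : ContDiffAt ℝ 1 rL ((0, p), z) := by
  have h1 := rc_diff (p := p) (z := z)
  have h2 := rk_diff (p := p) (z := z)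
  have h3 := rK_diff (p := p) (z := z)
  unfold rL
  refine ContDiffAt.sub (ContDiffAt.div (by fun_prop) (by fun_prop) ?_) (by fun_prop)
  rw [rc_zero]
  norm_num

theorem rM_diff {p z : ℝ × ℝ} : ContDiffAt ℝ 1 rM ((0, p), z) := by
  have h1 := rc_diff (p := p) (z := z)
  have h2 := rk_diff (p := p) (z := z)
  have h3 := rK_diff (p := p) (z := z)
  unfold rM
  refine ContDiffAt.add (ContDiffAt.div (by fun_prop) (by fun_prop) ?_) (by fun_prop)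
  rw [rc_zero]
  norm_num

theorem rP_diff {p z : ℝ × ℝ} : ContDiffAt ℝ 1 rP ((0, p), z) := by
  have h1 := rL_diff (p := p) (z := z)
  have h2 := rM_diff (p := p) (z := z)
  unfold rP
  fun_prop

theorem rf_diff {p z : ℝ × ℝ} : ContDiffAt ℝ 1 rf ((0, p), z) := by
  have h1 := rL_diff (p := p) (z := z)
  have h2 := rP_diff (p := p) (z := z)
  have h3 := rK_diff (p := p) (z := z)
  unfold rf
  refine ContDiffAt.prodMk (ContDiffAt.sub (ContDiffAt.add (ContDiffAt.div (by fun_prop)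
    (by fun_prop) ?_) (ContDiffAt.div (by fun_prop) (by fun_prop) ?_)) (by fun_prop))
    (by fun_prop)
  · rw [rK_zero]
    norm_num
  · rw [rK_zero]
    norm_num

/-- The side conditions. -/
def rR (x : RP) : Prop :=
  0 < 1 - (x.1.1 * x.2.1) ^ 2 ∧ 0 < 1 - (x.1.1 * x.2.2) ^ 2 ∧
    0 < rc x ^ 2 - (x.1.1 * x.2.1) ^ 2 ∧ 0 < rK x ∧ 0 < 1 - rK x

theorem rR_near {p z : ℝ × ℝ} : ∀ᶠ x in 𝓝 (((0, p), z) : RP), rR x := by
  have h1 := (rc_diff (p := p) (z := z)).continuousAt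
  have h3 := (rK_diff (p := p) (z := z)).continuousAt
  have e1 : ContinuousAt (fun x : RP => 1 - (x.1.1 * x.2.1) ^ 2) ((0, p), z) := by fun_prop
  have e2 : ContinuousAt (fun x : RP => 1 - (x.1.1 * x.2.2) ^ 2) ((0, p), z) := by fun_prop
  have e3 : ContinuousAt (fun x : RP => rc x ^ 2 - (x.1.1 * x.2.1) ^ 2) ((0, p), z) := by fun_prop
  have e5 : ContinuousAt (fun x : RP => 1 - rK x) ((0, p), z) := by fun_prop
  have f1 : ∀ᶠ x in 𝓝 (((0, p), z) : RP), 0 < 1 - (x.1.1 * x.2.1) ^ 2 :=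
    e1.eventually (eventually_gt_nhds (by simp))
  have f2 : ∀ᶠ x in 𝓝 (((0, p), z) : RP), 0 < 1 - (x.1.1 * x.2.2) ^ 2 :=
    e2.eventually (eventually_gt_nhds (by simp))
  have f3 : ∀ᶠ x in 𝓝 (((0, p), z) : RP), 0 < rc x ^ 2 - (x.1.1 * x.2.1) ^ 2 :=
    e3.eventually (eventually_gt_nhds (by simp only [rc_zero]; simp))
  have f4 : ∀ᶠ x in 𝓝 (((0, p), z) : RP), 0 < rK x :=
    h3.eventually (eventually_gt_nhds (by rw [rK_zero]; norm_num))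
  have f5 : ∀ᶠ x in 𝓝 (((0, p), z) : RP), 0 < 1 - rK x :=
    e5.eventually (eventually_gt_nhds (by simp only [rK_zero]; norm_num))
  filter_upwards [f1, f2, f3, f4, f5] with x g1 g2 g3 g4 g5
  exact ⟨g1, g2, g3, g4, g5⟩

theorem rf_local {p : ℝ × ℝ} (hp : p.1 ^ 2 + p.2 ^ 2 = 1) :
    ∀ᶠ y : ℝ × (ℝ × ℝ) in 𝓝 (0, p), ∃ z, rR (y, z) ∧ rf (y, z) = 0 := by
  obtain ⟨L, hL, hL1⟩ : ∃ L : ℝ, 0 < L ∧ (4 * p.1 ^ 2 + 4 / 3 * p.2 ^ 2) * L ^ 2 = 1 := by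
    have h1 : 0 < 4 * p.1 ^ 2 + 4 / 3 * p.2 ^ 2 := by nlinarith [sq_nonneg p.1, sq_nonneg p.2]
    refine ⟨√(4 * p.1 ^ 2 + 4 / 3 * p.2 ^ 2)⁻¹, Real.sqrt_pos.2 (inv_pos.2 h1), ?_⟩
    rw [Real.sq_sqrt (inv_pos.2 h1).le, mul_inv_cancel₀ h1.ne']
  have hL2 : L ^ 2 ≤ 3 / 4 := by nlinarith [sq_nonneg p.1, sq_nonneg (p.1 * L)]
  have hD : 0 < 396 - 72 * L ^ 2 := by linarith
  have hDs := Real.sq_sqrt hD.le
  have hDp : 0 < √(396 - 72 * L ^ 2) := Real.sqrt_pos.2 hD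
  set D : ℝ := √(396 - 72 * L ^ 2) with hDdef
  set Z : ℝ := (4 * L + D) / 11 with hZ
  set S : ℝ := (2 * Z - 4 * L) / 3 with hS
  have hLZ : Z / 2 - 3 / 4 * S = L := by
    rw [hS]
    ring
  have hZS : 3 * Z + S = D / 3 := by
    rw [hS, hZ]
    ring
  have hE : Z ^ 2 + S ^ 2 / 2 - 4 = 0 := by
    rw [hS, hZ]
    linear_combination (1 / 99) * hDs
  refine local_solve (z := (S, Z)) rf_diff ?_ ?_ rR_near
  · rw [rf_zero]
    refine Prod.ext ?_ ?_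
    · simp only [Prod.fst_zero]
      rw [hLZ, hL1, sub_self]
    · simp only [Prod.snd_zero]
      exact hE
  · rintro ⟨w1, w2⟩
    set W : ℝ := 4 * p.1 ^ 2 + 4 / 3 * p.2 ^ 2 with hW
    have hWL : 2 * W * L ≠ 0 := by
      intro h
      have : W * L ^ 2 = 0 := by
        linear_combination (L / 2) * h
      rw [this] at hL1
      exact zero_ne_one hL1
    set r : ℝ := w1 / (2 * W * L) with hr
    set v1 : ℝ := (w2 - 4 * Z * r) / (3 * Z + S) with hv1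
    set v2 : ℝ := 2 * r + 3 / 2 * v1 with hv2
    have hZS0 : 3 * Z + S ≠ 0 := by
      rw [hZS]
      positivity
    refine ⟨(v1, v2), ?_⟩
    have e0 : (fun t : ℝ => rf ((0, p), (S, Z) + t • (v1, v2))) = fun t : ℝ =>
        (W * ((Z + t * v2) / 2 - 3 / 4 * (S + t * v1)) ^ 2 - 1,
          (Z + t * v2) ^ 2 + (S + t * v1) ^ 2 / 2 - 4) := by
      funext t
      rw [rf_zero]
      rfl
    rw [e0]
    refine HasDerivAt.prodMk ?_ ?_
    · have h1 : HasDerivAt (fun t : ℝ => W * ((Z + t * v2) / 2 - 3 / 4 * (S + t * v1)) ^ 2 - 1)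
          (W * (2 * ((Z + 0 * v2) / 2 - 3 / 4 * (S + 0 * v1)) ^ 1 *
            (1 * v2 / 2 - 3 / 4 * (1 * v1)))) 0 := by
        have a1 : HasDerivAt (fun t : ℝ => (Z + t * v2) / 2) (1 * v2 / 2) 0 :=
          (((hasDerivAt_id (0 : ℝ)).mul_const v2).const_add Z).div_const 2
        have a2 : HasDerivAt (fun t : ℝ => 3 / 4 * (S + t * v1)) (3 / 4 * (1 * v1)) 0 :=
          (((hasDerivAt_id (0 : ℝ)).mul_const v1).const_add S).const_mul (3 / 4)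
        have a3 := ((a1.sub a2).pow 2).const_mul W
        simpa using a3.sub_const 1
      refine h1.congr_deriv ?_
      have h2 : w1 = r * (2 * W * L) := by
        rw [hr, div_mul_cancel₀ _ hWL]
      have h3 : (1 * v2 / 2 - 3 / 4 * (1 * v1)) = r := by
        rw [hv2]
        ring
      rw [h3, h2, zero_mul, zero_mul, add_zero, add_zero, hLZ]
      ring
    · have h1 : HasDerivAt (fun t : ℝ => (Z + t * v2) ^ 2 + (S + t * v1) ^ 2 / 2 - 4)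
          (2 * (Z + 0 * v2) ^ 1 * (1 * v2) + 2 * (S + 0 * v1) ^ 1 * (1 * v1) / 2) 0 := by
        have a1 : HasDerivAt (fun t : ℝ => (Z + t * v2)) (1 * v2) 0 :=
          (((hasDerivAt_id (0 : ℝ)).mul_const v2).const_add Z)
        have a2 : HasDerivAt (fun t : ℝ => (S + t * v1)) (1 * v1) 0 :=
          (((hasDerivAt_id (0 : ℝ)).mul_const v1).const_add S)
        have a3 := ((a1.pow 2).add ((a2.pow 2).div_const 2)).sub_const 4
        simpa using a3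
      refine h1.congr_deriv ?_
      have h2 : w2 = v1 * (3 * Z + S) + 4 * Z * r := by
        rw [hv1, div_mul_cancel₀ _ hZS0]
        ring
      rw [h2, hv2]
      ring

theorem real_exists : ∃ q₀ : ℝ, ∀ q ≥ q₀, ∀ a b : ℝ, a ^ 2 + b ^ 2 = q →
    ∃ s c σ κ C T X Y : ℝ, c ^ 2 + s ^ 2 = 1 ∧ σ ^ 2 + κ ^ 2 = 1 ∧ C ^ 2 + T ^ 2 = 1 ∧
      X ^ 2 + Y ^ 2 = 1 ∧
      2 * c * (T * X + s * T ^ 2 + a * s * C ^ 2) = σ * κ * (a - 1) ∧
      2 * c * (C * Y) = b * (2 * c * s * C ^ 2 - σ * κ) ∧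
      c * (κ ^ 2 - σ ^ 2) + 4 * c * s ^ 2 * C ^ 2 - 2 * s * σ * κ -
        2 * c ^ 3 * (2 * C ^ 2 - 1) = 0 ∧
      (q - 1) * σ ^ 2 - 4 * s * T * X + 2 * (q - 1) * s ^ 2 * T ^ 2 = 4 ∧ c ≠ 0 := by
  have hK : IsCompact {p : ℝ × ℝ | p.1 ^ 2 + p.2 ^ 2 = 1} := by
    refine Metric.isCompact_of_isClosed_isBounded
      (isClosed_eq (by fun_prop) continuous_const) ?_
    refine (Metric.isBounded_closedBall (x := (0 : ℝ × ℝ)) (r := 1)).subset ?_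
    intro p hp
    rw [mem_closedBall_zero_iff, Prod.norm_def, max_le_iff, Real.norm_eq_abs, Real.norm_eq_abs]
    have hp' : p.1 ^ 2 + p.2 ^ 2 = 1 := hp
    constructor
    · rw [← sq_le_one_iff_abs_le_one]
      nlinarith [sq_nonneg p.2]
    · rw [← sq_le_one_iff_abs_le_one]
      nlinarith [sq_nonneg p.1]
  have hev : ∀ᶠ ε in 𝓝 (0 : ℝ), ∀ p ∈ {p : ℝ × ℝ | p.1 ^ 2 + p.2 ^ 2 = 1},
      ∃ z, rR ((ε, p), z) ∧ rf ((ε, p), z) = 0 :=
    hK.eventually_forall_of_forall_eventually (fun p hp => rf_local hp)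
  obtain ⟨δ, hδ, hb⟩ := Metric.eventually_nhds_iff.1 hev
  refine ⟨1 / δ ^ 2 + 1, fun q hq a b hab => ?_⟩
  have hδ2 : 0 < 1 / δ ^ 2 := by positivity
  have hq0 : 0 < q := by linarith
  have hqs := Real.sq_sqrt hq0.le
  have hqp := Real.sqrt_pos.2 hq0
  obtain ⟨ε, hε, hε2, hεδ⟩ : ∃ ε : ℝ, 0 < ε ∧ ε ^ 2 * q = 1 ∧ ε < δ := by
    refine ⟨(√q)⁻¹, inv_pos.2 hqp, ?_, ?_⟩
    · rw [inv_pow, hqs, inv_mul_cancel₀ hq0.ne']
    · rw [inv_lt_comm₀ hqp hδ]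
      refine Real.lt_sqrt_of_sq_lt ?_
      rw [inv_pow, ← one_div]
      linarith
  have hp : (ε * a, ε * b) ∈ {p : ℝ × ℝ | p.1 ^ 2 + p.2 ^ 2 = 1} := by
    show (ε * a) ^ 2 + (ε * b) ^ 2 = 1
    linear_combination ε ^ 2 * hab + hε2
  obtain ⟨⟨S, Z⟩, hR, hf⟩ := hb (y := ε) (by rwa [Real.dist_eq, sub_zero, abs_of_pos hε]) _ hp
  obtain ⟨r1, r2, r3, r4, r5⟩ := hR
  have hK0 : rK ((ε, (ε * a, ε * b)), (S, Z)) = (2 * rc ((ε, (ε * a, ε * b)), (S, Z)) ^ 3 +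
    rc ((ε, (ε * a, ε * b)), (S, Z)) * (rk ((ε, (ε * a, ε * b)), (S, Z)) ^ 2 - (ε * Z) ^ 2) -
    2 * (ε * S) * (ε * Z) * rk ((ε, (ε * a, ε * b)), (S, Z))) /
    (4 * rc ((ε, (ε * a, ε * b)), (S, Z)) *
      (rc ((ε, (ε * a, ε * b)), (S, Z)) ^ 2 - (ε * S) ^ 2)) := rfl
  have hc2 : rc ((ε, (ε * a, ε * b)), (S, Z)) ^ 2 = 1 - (ε * S) ^ 2 := Real.sq_sqrt r1.le
  have hk2 : rk ((ε, (ε * a, ε * b)), (S, Z)) ^ 2 = 1 - (ε * Z) ^ 2 := Real.sq_sqrt r2.le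
  have hcp : 0 < rc ((ε, (ε * a, ε * b)), (S, Z)) := Real.sqrt_pos.2 r1
  have hP0 : rP ((ε, (ε * a, ε * b)), (S, Z)) =
      ε * a * rL ((ε, (ε * a, ε * b)), (S, Z)) - ε * rM ((ε, (ε * a, ε * b)), (S, Z)) := rfl
  have hL0 : rL ((ε, (ε * a, ε * b)), (S, Z)) =
      Z * rk ((ε, (ε * a, ε * b)), (S, Z)) / (2 * rc ((ε, (ε * a, ε * b)), (S, Z))) -
        S * rK ((ε, (ε * a, ε * b)), (S, Z)) := rfl
  have hM0 : rM ((ε, (ε * a, ε * b)), (S, Z)) =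
      Z * rk ((ε, (ε * a, ε * b)), (S, Z)) / (2 * rc ((ε, (ε * a, ε * b)), (S, Z))) +
        S * (1 - rK ((ε, (ε * a, ε * b)), (S, Z))) := rfl
  obtain ⟨f1, f2⟩ := Prod.ext_iff.1 hf
  replace f1 : rP ((ε, (ε * a, ε * b)), (S, Z)) ^ 2 / (1 - rK ((ε, (ε * a, ε * b)), (S, Z))) +
    (ε * b * rL ((ε, (ε * a, ε * b)), (S, Z))) ^ 2 / rK ((ε, (ε * a, ε * b)), (S, Z)) - 1 = 0 := f1
  replace f2 : (1 - ε ^ 2) * Z ^ 2 - 4 * ε * S * rP ((ε, (ε * a, ε * b)), (S, Z)) +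
      2 * (1 - ε ^ 2) * S ^ 2 * (1 - rK ((ε, (ε * a, ε * b)), (S, Z))) - 4 = 0 := f2
  replace r3 : 0 < rc ((ε, (ε * a, ε * b)), (S, Z)) ^ 2 - (ε * S) ^ 2 := r3
  generalize rc ((ε, (ε * a, ε * b)), (S, Z)) = c at *
  generalize rk ((ε, (ε * a, ε * b)), (S, Z)) = κ at *
  generalize rK ((ε, (ε * a, ε * b)), (S, Z)) = K at *
  generalize rL ((ε, (ε * a, ε * b)), (S, Z)) = L at *
  generalize rM ((ε, (ε * a, ε * b)), (S, Z)) = M at *
  generalize rP ((ε, (ε * a, ε * b)), (S, Z)) = P at *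
  have hKs := Real.sq_sqrt r4.le
  have hKp := Real.sqrt_pos.2 r4
  have hTs := Real.sq_sqrt r5.le
  have hTp := Real.sqrt_pos.2 r5
  generalize √K = C at *
  generalize √(1 - K) = T at *
  have hK1 : K * (4 * c * (c ^ 2 - (ε * S) ^ 2)) =
      2 * c ^ 3 + c * (κ ^ 2 - (ε * Z) ^ 2) - 2 * (ε * S) * (ε * Z) * κ := by
    rw [hK0, div_mul_cancel₀]
    positivity
  have hL1 : 2 * c * L = Z * κ - 2 * c * S * K := by
    rw [hL0]
    field_simp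
  have hM1 : 2 * c * M = Z * κ + 2 * c * S * (1 - K) := by
    rw [hM0]
    field_simp
  have hTX : T * (P / T) = P := mul_div_cancel₀ _ hTp.ne'
  have hCY : C * (-(ε * b * L) / C) = -(ε * b * L) := mul_div_cancel₀ _ hKp.ne'
  refine ⟨ε * S, c, ε * Z, κ, C, T, P / T, -(ε * b * L) / C, ?_, ?_, ?_, ?_, ?_, ?_, ?_, ?_,
    hcp.ne'⟩
  · rw [hc2]
    ring
  · rw [hk2]
    ring
  · rw [hKs, hTs]
    ring
  · rw [div_pow, div_pow, hTs, hKs, neg_sq]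
    linarith
  · rw [hTX, hTs, hKs, hP0]
    linear_combination ε * a * hL1 - ε * hM1
  · rw [hCY, hKs]
    linear_combination -(ε * b) * hL1
  · rw [hKs]
    linear_combination -hK1
  · have e1 : 4 * (ε * S) * T * (P / T) = 4 * (ε * S) * P := by
      rw [mul_assoc, hTX]
    rw [e1, hTs]
    linear_combination f2 + (Z ^ 2 + 2 * S ^ 2 * (1 - K)) * hε2

end Pool.Agent.H37.POS
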